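import Pool.Agent.Work.MP_678620_nt.TAFin

/-! Pairs of sums of two squares: versions of the transfer lemmas with a moving shift. -/

set_option autoImplicit false
open Finset Filter Topology Real

namespace Pool.Agent.Work.MP_678620_nt.TA

open Classical

lemma zero_w {e w : ℕ → ℝ} {C : ℝ} (hw : ∀ᶠ X : ℕ in atTop, 0 ≤ w X ∧ w X ≤ C)
    (he : Tendsto e atTop (𝓝 0)) : Tendsto (fun X => e X * w X) atTop (𝓝 0) := by
  refine squeeze_zero_norm' (a := fun X => ‖e X‖ * C) (hw.mono fun X h => ?_)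
    (by simpa using he.norm.mul_const C)
  rw [norm_mul, norm_eq_abs (w X), abs_of_nonneg h.1]
  exact mul_le_mul_of_nonneg_left h.2 (norm_nonneg _)

lemma sandw {w : ℕ → ℝ} {C : ℝ} (hw : ∀ᶠ X : ℕ in atTop, 0 ≤ w X ∧ w X ≤ C)
    {F G e θ θ' : ℕ → ℝ}
    (h : ∀ᶠ X in atTop, θ X * (G X - e X) ≤ F X ∧ F X ≤ θ' X * G X) (hθ : Tendsto θ atTop (𝓝 1))
    (hθ' : Tendsto θ' atTop (𝓝 1)) (he : Tendsto e atTop (𝓝 0)) {x : ℝ} :
    Tendsto (fun X => F X * w X) atTop (𝓝 x) ↔ Tendsto (fun X => G X * w X) atTop (𝓝 x) := by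
  refine sand ?_ hθ hθ' (zero_w hw he)
  filter_upwards [h, hw] with X a b
  rw [← sub_mul, ← mul_assoc, ← mul_assoc]
  exact ⟨mul_le_mul_of_nonneg_right a.1 b.1, mul_le_mul_of_nonneg_right a.2 b.1⟩

lemma distw {w : ℕ → ℝ} {C : ℝ} (hw : ∀ᶠ X : ℕ in atTop, 0 ≤ w X ∧ w X ≤ C) {f g : ℕ → ℝ}
    (h : Tendsto (fun X => dist (f X) (g X)) atTop (𝓝 0)) :
    Tendsto (fun X => dist (f X * w X) (g X * w X)) atTop (𝓝 0) := by
  refine (zero_w hw h).congr' (hw.mono fun X a => ?_)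
  simp only [Real.dist_eq]
  rw [← sub_mul, abs_mul, abs_of_nonneg a.1]

theorem box_asymU (k : ℕ) : ∀ᶠ X : ℕ in atTop, ∀ H : Finset ℤ, H.card = k →
    ∀ (B : Finset ℕ) (c : ℤ),
    (∀ p ∈ B, p.Prime ∧ p % 4 = 1 ∧ (p : ℝ) ≤ zz X) →
    |ct X (fun n => (∀ h ∈ H, AA (zz X) (al X) (n + h)) ∧ ∀ p ∈ B, ¬ (p : ℤ) ∣ n + c)
      - X * (PH H (zz X) (al X) * ∏ p ∈ B, (1 - (p : ℝ)⁻¹))| ≤ X / log X ^ 5 := by
  filter_upwards [sum_inv_le (a := 24 / 25) (by norm_num), tll.eventually_ge_atTop 72,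
    tl.eventually_ge_atTop 4, tz.eventually_ge_atTop 2, eventually_gt_atTop 0,
    ev_le (32 * (6 * (k + 2) + 8)) 2 (show (24 / 25 : ℝ) < 1 by norm_num),
    ev_le 12 1 (show (0 : ℝ) < 1 by norm_num)] with X h1 h2 h3 h4 h5 h6 h7 H hH B c hB
  subst hH
  set z := zz X with hz
  set α := al X with hα
  set l := log (log X) with hl
  have α0 : α ≠ 0 := Nat.succ_ne_zero _
  have hP : ∀ p ∈ PP z ∪ B, p.Prime ∧ (p : ℝ) ≤ z := fun p hp => (mem_union.1 hp).elim
    (fun h => let a := (mem_PP (by linarith)).1 h; ⟨a.1, a.2.2⟩) fun h => ⟨(hB p h).1, (hB p h).2.2⟩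
  have hm : ∀ p ∈ PP z ∪ B, max p 1 = p := fun p hp => max_eq_left (hP p hp).1.pos
  have dj : Disjoint (PP z) B := disjoint_left.2 fun p a b => (mem_filter.1 a).2.2 (hB p b).2.1
  let P : ℕ → ℤ → Prop := fun p a =>
    if p % 4 = 1 then ¬ (p : ℤ) ∣ a + c else ∀ h ∈ H, Loc (p ^ α) (a + h)
  have d1 : ∀ p ∈ PP z, dn (max p 1 ^ α) (P p) = den H (p ^ α) := fun p hp => by
    rw [hm p (mem_union_left _ hp)]
    exact dn_congr fun a => by simp only [P, if_neg (mem_filter.1 hp).2.2]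
  have d2 : ∀ p ∈ B, dn (max p 1 ^ α) (P p) = 1 - (p : ℝ)⁻¹ := fun p hp => by
    have := pow_ne_zero α (hB p hp).1.ne_zero
    rw [hm p (mem_union_right _ hp), ← dn_dvd this (dvd_pow_self p α0) c, ← dn_not this]
    exact dn_congr fun a => by simp only [P, if_pos (hB p hp).2.1]
  have c0 := H.card.cast_nonneg (α := ℝ)
  have key := box0 (PP z ∪ B) (fun p => max p 1 ^ α) (fun p => by positivity)
    (fun p hp q hq e => by
      rw [hm p hp, hm q hq]
      exact Nat.coprime_pow_primes _ _ (hP p hp).1 (hP q hq).1 e) P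
    (fun p hp => by
      rw [hm p hp]
      by_cases e : p % 4 = 1
      · simp only [P, if_pos e]
        exact fun a b d f g => f ((per_dvd (dvd_pow_self p α0)).shift c b a (dvd_sub_comm.1 d) g)
      · simp only [P, if_neg e]
        exact per_den H _)
    ⌈(6 * (H.card + 2) + 6) * l⌉₊ X (Λ := (H.card + 2) * (2 * l)) (Mx := z ^ (α + 1))
    (by
      refine le_trans (sum_le_sum (g := fun p : ℕ => (H.card + 2) * (p : ℝ)⁻¹) fun p hp => ?_) ?_
      · rcases mem_union.1 hp with h | h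
        · rw [d1 p h]; exact one_sub_den' H (hP p hp).1 α0
        · rw [d2 p h, sub_sub_cancel]
          exact le_mul_of_one_le_left (by positivity) (by linarith)
      · rw [← mul_sum]
        have := h1 _ hP
        gcongr
        linarith)
    (by
      refine (sum_le_card_nsmul _ _ (z ^ α) fun p hp => ?_).trans ?_
      · rw [hm p hp, Nat.cast_pow]
        exact pow_le_pow_left₀ p.cast_nonneg (hP p hp).2 _
      · rw [nsmul_eq_mul, pow_succ']
        gcongr
        refine le_trans ?_ (Nat.floor_le (by linarith : 0 ≤ z))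
        exact_mod_cast (card_le_card (t := Icc 1 ⌊z⌋₊) fun p hp => mem_Icc.2
          ⟨(hP p hp).1.pos, Nat.le_floor (hP p hp).2⟩).trans (by simp))
  rw [prod_union dj, prod_congr rfl d1, prod_congr rfl d2] at key
  have e : (fun y => ∀ i ∈ PP z ∪ B, P i y) = fun n => (∀ h ∈ H, AA z α (n + h)) ∧
      ∀ p ∈ B, ¬ (p : ℤ) ∣ n + c := by
    ext n
    rw [forall_mem_union]
    refine and_congr ⟨fun a h hh p hp => ?_, fun a p hp => ?_⟩ (forall₂_congr fun p hp => ?_)
    · have := a p hp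
      simp only [P, if_neg (mem_filter.1 hp).2.2] at this
      exact this h hh
    · simp only [P, if_neg (mem_filter.1 hp).2.2]
      exact fun h hh => a h hh p hp
    · simp only [P, if_pos (hB p hp).2.1]
  rw [e] at key
  refine key.trans ?_
  set j := ⌈(6 * (H.card + 2) + 6) * l⌉₊ + 1 with hj
  have j1 : (6 * (H.card + 2) + 6) * l ≤ j := by
    rw [hj]; push_cast; linarith [Nat.le_ceil ((6 * (H.card + 2) + 6) * l)]
  have j2 : (j : ℝ) ≤ (6 * (H.card + 2) + 8) * l := by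
    have := Nat.ceil_lt_add_one (show 0 ≤ (6 * ((H.card : ℝ) + 2) + 6) * l by positivity)
    rw [hj]; push_cast; linarith
  have a2 : ((α + 2 : ℕ) : ℝ) ≤ 16 * l := by
    have := Nat.ceil_lt_add_one (show 0 ≤ 10 * l by positivity)
    rw [hα, al]; push_cast; linarith
  have l0 : 0 < log X := lt_of_lt_of_le (by norm_num) h3
  have X0 : (0 : ℝ) < X := by exact_mod_cast h5
  have b1 : ((H.card + 2) * (2 * l)) ^ j / j.factorial ≤ 1 / log X ^ 6 := by
    refine (pow_fact_le (by positivity) j).trans ?_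
    rw [← exp_neg_ll l0]
    gcongr
    push_cast
    linarith
  have b2 : (1 + z ^ (α + 1)) ^ j ≤ X / log X ^ 5 / 2 := by
    have : 1 + z ^ (α + 1) ≤ z ^ (α + 2) := by
      rw [pow_succ z (α + 1)]
      nlinarith [one_le_pow₀ (n := α + 1) (by linarith : 1 ≤ z)]
    refine (pow_le_pow_left₀ (by positivity) this j).trans ?_
    rw [div_div, le_div_iff₀ (by positivity), ← log_le_log_iff (by positivity) X0,
      log_mul (by positivity) (by positivity), log_mul (by positivity) (by positivity),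
      log_pow, log_pow, log_pow, hz, zz, log_exp]
    rw [rpow_one] at h6 h7
    rw [rpow_zero] at h7
    have := log_two_lt_d9
    have : (j : ℝ) * (((α + 2 : ℕ) : ℝ) * log X ^ (24 / 25 : ℝ)) ≤
      ((6 * (H.card + 2) + 8) * l) * (16 * l * log X ^ (24 / 25 : ℝ)) := by gcongr
    push_cast at this ⊢
    nlinarith
  have b3 : 2 * X * (1 / log X ^ 6) ≤ X / log X ^ 5 / 2 := by
    rw [div_div, mul_one_div, div_le_div_iff₀ (by positivity) (by positivity), pow_succ _ 5]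
    nlinarith [mul_pos X0 (pow_pos l0 5)]
  have : 2 * X * (((H.card + 2) * (2 * l)) ^ j / j.factorial) ≤ 2 * X * (1 / log X ^ 6) := by
    gcongr
  linarith

theorem small_countU (j k : ℕ) : ∀ᶠ X : ℕ in atTop, ∀ H : Finset ℤ, H.card = j → ∀ c : ℤ,
    ct X (fun n => (∀ h ∈ H, AA (zz X) (al X) (n + h)) ∧ wE (EE X) (n + c) < k) ≤
      10 ^ k * (X * PH H (zz X) (al X) * exp (-(9 / 10 * LL X)) + X / log X ^ 5) := by
  filter_upwards [box_asymU j, EE_mem] with X h' hE H hH c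
  have h := h' H hH
  let w : Finset ℕ → ℝ := fun B => (9 / 10) ^ B.card * ∏ _p ∈ EE X \ B, (1 / 10 : ℝ)
  have w0 : ∀ B, 0 ≤ w B := fun B => by positivity
  have e : ∀ f : ℕ → ℝ, ∑ B ∈ (EE X).powerset, w B * ∏ p ∈ B, f p
      = ∏ p ∈ EE X, (9 / 10 * f p + 1 / 10) := fun f => by
    rw [prod_add]
    refine sum_congr rfl fun B _ => ?_
    rw [prod_mul_distrib, prod_const]
    ring
  have pt : ∀ (A : Prop) (n : ℤ), ind (A ∧ wE (EE X) n < k) ≤
      10 ^ k * ∑ B ∈ (EE X).powerset, w B * ind (A ∧ ∀ p ∈ B, ¬ (p : ℤ) ∣ n) := by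
    intro A n
    by_cases a : A ∧ wE (EE X) n < k
    swap
    · rw [ind_neg a]
      exact mul_nonneg (by positivity) (sum_nonneg fun _ _ => mul_nonneg (w0 _) (ind_nonneg _))
    have : ∀ B : Finset ℕ, ind (A ∧ ∀ p ∈ B, ¬ (p : ℤ) ∣ n) = ∏ p ∈ B, ind (¬ (p : ℤ) ∣ n) := by
      intro B
      by_cases b : ∀ p ∈ B, ¬ (p : ℤ) ∣ n
      · rw [ind_pos ⟨a.1, b⟩, prod_eq_one fun p hp => ind_pos (b p hp)]
      · rw [ind_neg fun c => b c.2]
        push Not at b
        obtain ⟨p, hp, b⟩ := b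
        rw [prod_eq_zero hp (ind_neg (not_not.2 b))]
    simp only [this]
    rw [e, ind_pos a, prod_congr rfl (g := fun p : ℕ => if (p : ℤ) ∣ n then (1 / 10 : ℝ) else 1)
      fun p _ => by split_ifs with b <;> norm_num [ind, b], prod_ite, prod_const_one, mul_one,
      prod_const, one_div, inv_pow, ← div_eq_mul_inv, one_le_div (by positivity)]
    exact pow_le_pow_right₀ (by norm_num) a.2.le
  refine (sum_le_sum fun n _ => pt _ _).trans ?_
  rw [← mul_sum, sum_comm]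
  gcongr
  simp only [← mul_sum]
  refine (sum_le_sum fun B hB => mul_le_mul_of_nonneg_left (sub_le_iff_le_add'.1 (abs_le.1
    (h B c fun p hp => hE p (mem_powerset.1 hB hp))).2) (w0 B)).trans ?_
  have e1 := e fun _ => 1
  have e2 := e fun p => 1 - (p : ℝ)⁻¹
  simp only [prod_const_one, mul_one] at e1
  norm_num at e1
  simp only [mul_add, sum_add_distrib]
  rw [← sum_mul, e1, one_mul, sum_congr rfl (g := fun B => X * PH H (zz X) (al X) *
    (w B * ∏ p ∈ B, (1 - (p : ℝ)⁻¹))) fun B _ => by ring, ← mul_sum, e2, LL, mul_sum,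
    ← sum_neg_distrib, exp_sum]
  have := PH_nonneg H (zz X) (al X)
  gcongr with p hp
  · intro p hp
    have : (p : ℝ)⁻¹ ≤ 1 := inv_le_one_of_one_le₀ (by exact_mod_cast (hE p hp).1.pos)
    linarith
  · linarith [add_one_le_exp (-(9 / 10 * (p : ℝ)⁻¹))]


theorem FF_iffU (H : ℕ → Finset ℤ) (hk : ∀ᶠ X : ℕ in atTop, (H X).card = 2)
    (hH : ∀ᶠ X : ℕ in atTop, ∀ h ∈ H X, 2 * |h| ≤ X) {w : ℕ → ℝ} {C : ℝ}
    (hw : ∀ᶠ X : ℕ in atTop, 0 ≤ w X ∧ w X ≤ C) {x : ℝ} :
    Tendsto (fun X : ℕ => (∑ n ∈ Ioc (X : ℤ) (2 * X), ∏ h ∈ H X, FF (zz X) (n + h)) /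
      (X * √(log X) ^ 2) * w X) atTop (𝓝 x) ↔
    Tendsto (fun X : ℕ => ct X (fun n => ∀ h ∈ H X, S2 (n + h)) * √(log X) ^ 2 / X * w X)
      atTop (𝓝 x) := by
  refine sandw hw (θ := fun X => (1 - (1 + log (YY X)) * (log X)⁻¹) ^ 2)
    (θ' := fun X => (1 + 2 * (log X)⁻¹) ^ 2)
    (e := fun X => (2 : ℕ) * (1 / log X ^ 5) * √(log X) ^ 2) ?_ ?_ ?_ (t0 2 ?_)
  · filter_upwards [hk, bad_count, hH, tl.eventually_ge_atTop 2, tz.eventually_ge_atTop 2,
      eventually_gt_atTop 0, ev_le 2 0 (show (49 / 50 : ℝ) < 1 by norm_num)] with X h0 h1 h2 h3 h4 h5 h6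
    rw [pow_zero, mul_one, rpow_one] at h6
    have X0 : (0 : ℝ) < X := by exact_mod_cast h5
    have l0 : 0 < log X := by linarith
    have lY : log (YY X) = log X ^ (49 / 50 : ℝ) := log_exp _
    obtain ⟨a, b⟩ := sand_sum X (H X) (f := FF (zz X)) (P := S2) (lo := log X - (1 + log (YY X)))
      (hi := log X + 2) (by linarith) (by linarith) h2 h1
      (fun n c d => by
        obtain ⟨e1, e2, e3⟩ := FF_bd (zz X) (n := n) (by omega)
        refine ⟨e1, e2.trans ?_, e3⟩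
        have := log_le_log (show (0 : ℝ) < n by exact_mod_cast (by omega : 0 < n))
          (show (n : ℝ) ≤ 3 * X by exact_mod_cast d)
        rw [log_mul three_ne_zero X0.ne'] at this
        linarith [log_le_sub_one_of_pos three_pos])
      fun n c d e => by
        refine le_trans ?_ (FF_lo h4 (by omega) d e)
        have := log_le_log X0 (show (X : ℝ) ≤ 2 * n by exact_mod_cast c.le)
        rw [log_mul two_ne_zero (by exact_mod_cast (by omega : n ≠ 0))] at this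
        linarith [log_two_lt_d9]
    rw [h0] at a b
    have s : √(log X) ^ 2 * √(log X) ^ 2 = log X ^ 2 := by
      rw [← mul_pow, mul_self_sqrt l0.le]
    have s0 : 0 < √(log X) ^ 2 := by positivity
    rw [show log X - (1 + log (YY X)) = (1 - (1 + log (YY X)) * (log X)⁻¹) * log X by field_simp,
      mul_pow, ← s] at a
    rw [show log X + 2 = (1 + 2 * (log X)⁻¹) * log X by field_simp, mul_pow, ← s] at b
    rw [le_div_iff₀ (by positivity), div_le_iff₀ (by positivity)]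
    exact ⟨le_trans (le_of_eq (by field_simp)) a, b.trans (le_of_eq (by field_simp))⟩
  · have : Tendsto (fun X : ℕ => (1 + log (YY X)) * (log X)⁻¹) atTop (𝓝 0) := by
      refine (by simpa using tinv.add ((tendsto_rpow_neg_atTop (y := 1 / 50)
        (by norm_num)).comp tl) : Tendsto (fun X : ℕ => (log X)⁻¹ + log X ^ (-(1 / 50 : ℝ)))
          atTop (𝓝 0)).congr' ?_
      filter_upwards [tl.eventually_gt_atTop 0] with X h
      rw [YY, log_exp, show (49 / 50 : ℝ) = -(1 / 50) + 1 by norm_num, rpow_add_one h.ne']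
      field_simp
    simpa using (this.const_sub 1).pow 2
  · simpa using ((tinv.const_mul 2).const_add 1).pow 2
  · filter_upwards [tl.eventually_ge_atTop 1] with X h
    have := (sq_bd h (le_refl 2)).2
    rw [abs_of_nonneg (by positivity)]
    calc _ ≤ (2 : ℕ) * (1 / log X ^ 2) * log X := by gcongr; norm_num
      _ = _ := by push_cast; field_simp

theorem Fb_iffU (H : ℕ → Finset ℤ) (hk : ∀ᶠ X : ℕ in atTop, (H X).card = 2)
    (hH : ∀ᶠ X : ℕ in atTop, ∀ h ∈ H X, 2 * |h| ≤ X) {w : ℕ → ℝ} {C : ℝ}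
    (hw : ∀ᶠ X : ℕ in atTop, 0 ≤ w X ∧ w X ≤ C) {x : ℝ} :
    Tendsto (fun X : ℕ => (∑ n ∈ Ioc (X : ℤ) (2 * X), ∏ h ∈ H X, Fb (zz X) (n + h)) /
      (X * √(log X) ^ 2) * w X) atTop (𝓝 x) ↔
    Tendsto (fun X : ℕ => r0 X ^ 2 * PH (H X) (zz X) (al X) / √(log X) ^ 2 * w X)
      atTop (𝓝 x) := by
  have bd : ∀ᶠ X : ℕ in atTop, 0 < r0 X ∧
      r0 X ^ 2 * (1 / log X ^ 5) / √(log X) ^ 2 ≤ (log X)⁻¹ := by
    filter_upwards [r0_bd, tl.eventually_ge_atTop 1] with X h1 h2
    have r : 0 < r0 X := lt_of_lt_of_le (by positivity) h1.1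
    refine ⟨r, (div_le_self (by positivity) (sq_bd h2 (le_refl 2)).1).trans ?_⟩
    have : r0 X ^ 2 ≤ (log X ^ 2) ^ 2 := pow_le_pow_left₀ r.le h1.2 _
    calc _ ≤ (log X ^ 2) ^ 2 * (1 / log X ^ 5) := by gcongr
      _ = _ := by field_simp
  refine (sandw hw (θ := fun X => (rho (zz X) (m1 X) / r0 X) ^ 2) (θ' := fun _ => 1)
    (G := fun X => r0 X ^ 2 * ct X (fun n => ∀ h ∈ H X, AA (zz X) (al X) (n + h)) /
      (X * √(log X) ^ 2))
    (e := fun X => (2 : ℕ) * (r0 X ^ 2 * (1 / log X ^ 5) / √(log X) ^ 2)) ?_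
    (by simpa using rho_tendsto.pow 2) tendsto_const_nhds (t0 2 ?_)).trans
    (tendsto_iff_of_dist (distw hw ?_))
  · filter_upwards [hk, bad_count, hH, tl.eventually_gt_atTop 0, tz.eventually_ge_atTop 2,
      eventually_gt_atTop 0, bd] with X h0 h1 h2 l0 h4 h5 h6
    have X0 : (0 : ℝ) < X := by exact_mod_cast h5
    have Y0 : 0 < YY X := exp_pos _
    obtain ⟨a, b⟩ := sand_sum X (H X) (f := Fb (zz X)) (P := AA (zz X) (al X))
      (lo := rho (zz X) (m1 X)) (hi := r0 X) (rho_nonneg _ _) h6.1.le h2 h1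
      (fun n c d => Fb_bd (by linarith) _ (by omega) (by exact_mod_cast d))
      fun n c d e => Fb_lo h4 (by omega) d e (by
        have := (le_div_iff₀ (by positivity)).1 (Nat.floor_le (show 0 ≤ X / (2 * YY X) by
          positivity))
        have : (X : ℝ) < 2 * n := by exact_mod_cast c
        rw [m1]
        linarith)
    have := h6.1
    rw [h0] at a b
    rw [one_mul, le_div_iff₀ (by positivity), div_le_div_iff_of_pos_right (by positivity)]
    exact ⟨le_trans (le_of_eq (by rw [div_pow]; field_simp)) a, b⟩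
  · filter_upwards [bd] with X h
    have := h.1
    rw [abs_of_nonneg (by positivity)]
    exact mul_le_mul (by norm_num) h.2 (by positivity) two_pos.le
  · refine t0 1 ?_
    filter_upwards [hk, bd, box_asymU 2, eventually_gt_atTop 0, tl.eventually_gt_atTop 0]
      with X h0 h1 h2 h5 l0
    have X0 : (0 : ℝ) < X := by exact_mod_cast h5
    have := h2 _ h0 ∅ 0 (by simp)
    simp only [notMem_empty, false_imp_iff, implies_true, and_true, prod_empty, mul_one] at this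
    have r := h1.1
    rw [abs_dist, Real.dist_eq, one_mul]
    refine le_trans ?_ h1.2
    rw [show r0 X ^ 2 * ct X (fun n => ∀ h ∈ H X, AA (zz X) (al X) (n + h)) /
      (X * √(log X) ^ 2) - r0 X ^ 2 * PH (H X) (zz X) (al X) / √(log X) ^ 2 =
      r0 X ^ 2 / (X * √(log X) ^ 2) * (ct X (fun n => ∀ h ∈ H X, AA (zz X) (al X) (n + h))
        - X * PH (H X) (zz X) (al X)) by field_simp, abs_mul, abs_of_nonneg (by positivity)]
    exact (mul_le_mul_of_nonneg_left this (by positivity)).trans (le_of_eq (by field_simp))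

theorem two_bdU (A : ℕ) : ∃ k : ℕ, ∀ᶠ X : ℕ in atTop, ∀ h : ℤ, h ≠ 0 → |(h : ℝ)| ≤ log X ^ A →
    2 * |h| ≤ X →
    |∑ n ∈ Ioc (X : ℤ) (2 * X), FF (zz X) n * FF (zz X) (n + h) -
      ∑ n ∈ Ioc (X : ℤ) (2 * X), Fb (zz X) n * Fb (zz X) (n + h)| ≤
    X + (4 * log X ^ 2 + r0 X ^ 2) * (2 * (10 ^ k * (X * PH {0, h} (zz X) (al X) *
      exp (-(9 / 10 * LL X)) + X / log X ^ 5)) + 2 * (X / log X ^ 5)) := by
  obtain ⟨k₀, hk⟩ := two_point (A + 10) 4 (by norm_num) (c0 := 1 / 100) (by norm_num)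
  refine ⟨k₀, ?_⟩
  filter_upwards [hk, eok, EE_mem, small_countU 2 k₀, big_count,
    tl.eventually_ge_atTop 2, tll.eventually_ge_atTop 1, eventually_gt_atTop 0,
    ev_le 121 2 (show (0 : ℝ) < 1 by norm_num)] with X h1 h2 h3 h4' h5 l2 h8 h9 h10 h hh h7 hX
  have h4 := h4' {0, h} (card_pair hh.symm)
  have X0 : (0 : ℝ) < X := by exact_mod_cast h9
  have z0 : 0 ≤ zz X := (exp_pos _).le
  have l10 : log X ≤ log X ^ (A + 10) := le_self_pow₀ (by linarith) (by omega)
  have k := fun k k' a b c d => h1 X (Nat.le_self_pow two_ne_zero X) (Nat.le_self_pow two_ne_zero X)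
    _ h2 k k' a b c d h 0 1 hh (h7.trans (pow_le_pow_right₀ (by linarith) (by omega))) le_rfl
    (by push_cast; linarith) _ _ _ _ (dat (zz X)) (dat (zz X))
    (fun p hp => be_mul (h3 p hp).1 (h3 p hp).2.1 (h3 p hp).2.2)
    (fun p hp => be_mul (h3 p hp).1 (h3 p hp).2.1 (h3 p hp).2.2)
  simp only [Nat.cast_one, Int.modEq_one, and_true] at k
  have r : ∀ n ∈ Ioc (X : ℤ) (2 * X), (1 ≤ n ∧ n ≤ 3 * X) ∧ 1 ≤ n + h ∧ n + h ≤ 3 * X := by
    intro n hn
    have := le_abs_self h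
    have := neg_abs_le h
    rw [mem_Ioc] at hn
    omega
  let f : ℤ → ℝ := fun n => FF (zz X) n * FF (zz X) (n + h) - Fb (zz X) n * Fb (zz X) (n + h)
  let T := Icc k₀ ⌊10 * log (log X)⌋₊
  have hT : ∀ j ∈ T, k₀ ≤ j ∧ (j : ℝ) ≤ (A + 10 : ℕ) * log (log X) := fun j hj =>
    ⟨(mem_Icc.1 hj).1, ((Nat.le_floor_iff (by positivity)).1 (mem_Icc.1 hj).2).trans
      (mul_le_mul_of_nonneg_right (by push_cast; linarith [A.cast_nonneg (α := ℝ)]) (by linarith))⟩
  rw [← sum_sub_distrib, ← norm_eq_abs, ← Complex.norm_real, Complex.ofReal_sum,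
    split_sum _ _ (wE (EE X)) (fun n => wE (EE X) (n + h)) T]
  refine (norm_add_le _ _).trans (add_le_add ?_ ?_)
  · have c : (T.card : ℝ) ≤ 11 * log (log X) := by
      have := Nat.floor_le (show 0 ≤ 10 * log (log X) by positivity)
      have : (T.card : ℝ) ≤ ⌊10 * log (log X)⌋₊ + 1 := by
        rw [Nat.card_Icc]; exact_mod_cast Nat.sub_le _ _
      linarith
    refine (norm_sum_le_of_le _ (n := fun _ => T.card • (X / log X ^ (A + 10))) fun j hj =>
      (norm_sum_le _ _).trans (sum_le_card_nsmul _ _ _ fun j' hj' => ?_)).trans ?_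
    · refine le_trans (le_of_eq ?_) (k j j' (hT j hj).1 (hT j' hj').1 (hT j hj).2 (hT j' hj').2)
      congr 1
      refine sum_congr rfl fun n hn => ?_
      obtain ⟨a, b⟩ := r n hn
      rw [FF_cast _ a.1, FF_cast _ b.1, Fb_cast _ a.1, Fb_cast _ b.1]
      push_cast
      congr
    · rw [sum_const, nsmul_eq_mul, nsmul_eq_mul]
      rw [rpow_zero, rpow_one] at h10
      calc _ ≤ 11 * log (log X) * (11 * log (log X) * (X / log X)) := by gcongr
        _ = X * ((121 * 1 * log (log X) ^ 2) / log X) := by ring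
        _ ≤ X := mul_le_of_le_one_right X0.le ((div_le_one (by linarith)).2 h10)
  · let Q : ℤ → Prop := fun n => ∀ h' ∈ ({0, h} : Finset ℤ), AA (zz X) (al X) (n + h')
    have M0 : 0 ≤ 4 * log X ^ 2 + r0 X ^ 2 := by positivity
    refine (norm_sum_le_of_le _ (n := fun n => (4 * log X ^ 2 + r0 X ^ 2) *
      (ind (Q n ∧ wE (EE X) (n + 0) < k₀) + ind (Q n ∧ wE (EE X) (n + h) < k₀) +
      (ind (10 * log (log X) < wE (EE X) (n + 0)) + ind (10 * log (log X) < wE (EE X) (n + h)))))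
      fun n hn => ?_).trans ?_
    · have i1 := ind_nonneg (Q n ∧ wE (EE X) (n + 0) < k₀)
      have i2 := ind_nonneg (Q n ∧ wE (EE X) (n + h) < k₀)
      have i3 := ind_nonneg (10 * log (log X) < wE (EE X) (n + 0))
      have i4 := ind_nonneg (10 * log (log X) < wE (EE X) (n + h))
      split_ifs with c
      · rw [norm_zero]; positivity
      obtain ⟨a, b⟩ := r n hn
      have F : ∀ n : ℤ, 1 ≤ n → n ≤ 3 * X → 0 ≤ FF (zz X) n ∧ FF (zz X) n ≤ 2 * log X ∧
          (¬ AA (zz X) (al X) n → FF (zz X) n = 0) := fun n c d => by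
        obtain ⟨e1, e2, e3⟩ := FF_bd (zz X) c
        refine ⟨e1, e2.trans ?_, fun e => e3 fun s => e (s.aa _ _)⟩
        have := log_le_log (show (0 : ℝ) < n by exact_mod_cast c)
          (show (n : ℝ) ≤ 3 * X by exact_mod_cast d)
        rw [log_mul three_ne_zero X0.ne'] at this
        linarith [log_le_sub_one_of_pos three_pos]
      obtain ⟨a1, a2, a3⟩ := F n a.1 a.2
      obtain ⟨b1, b2, b3⟩ := F _ b.1 b.2
      obtain ⟨c1, c2, c3⟩ := Fb_bd z0 (al X) a.1 (M := 3 * X) (by exact_mod_cast a.2)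
      obtain ⟨d1, d2, d3⟩ := Fb_bd z0 (al X) b.1 (M := 3 * X) (by exact_mod_cast b.2)
      rw [Complex.norm_real, norm_eq_abs]
      by_cases e : Q n
      · refine le_trans (b := 4 * log X ^ 2 + r0 X ^ 2) ?_ (le_mul_of_one_le_right M0 ?_)
        · have := mul_le_mul a2 b2 b1 (by linarith)
          have := mul_le_mul c2 d2 d1 (rho_nonneg _ _)
          have := mul_nonneg a1 b1
          have := mul_nonneg c1 d1
          rw [r0, abs_le]
          constructor <;> nlinarith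
        · simp only [T, mem_Icc, Nat.le_floor_iff (show 0 ≤ 10 * log (log X) by positivity),
            not_and_or, not_le] at c
          rw [add_zero] at *
          rcases c with (c | c) | c | c
          · linarith [ind_pos (And.intro e c)]
          · linarith [ind_pos c]
          · linarith [ind_pos (And.intro e c)]
          · linarith [ind_pos c]
      · simp only [Q, mem_insert, mem_singleton, forall_eq_or_imp, forall_eq, add_zero,
          not_and_or] at e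
        rcases e with e | e
        · rw [a3 e, c3 e, zero_mul, zero_mul, sub_zero, abs_zero]; positivity
        · rw [b3 e, d3 e, mul_zero, mul_zero, sub_zero, abs_zero]; positivity
    · rw [← mul_sum, sum_add_distrib, sum_add_distrib, sum_add_distrib, two_mul (10 ^ k₀ * _ : ℝ),
        two_mul (X / log X ^ 5 : ℝ)]
      have := abs_nonneg h
      exact mul_le_mul_of_nonneg_left (add_le_add (add_le_add (h4 0) (h4 h)) (add_le_add
        ((ct_le_cu (c := 0) (by simp) _).trans h5) ((ct_le_cu (by omega) _).trans h5))) M0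

theorem two_transU (A : ℕ) (h : ℕ → ℤ)
    (hh : ∀ᶠ X : ℕ in atTop, h X ≠ 0 ∧ |(h X : ℝ)| ≤ log X ^ A ∧ 2 * |h X| ≤ X)
    {w : ℕ → ℝ} {C : ℝ} (hw : ∀ᶠ X : ℕ in atTop, 0 ≤ w X ∧ w X ≤ C) {x : ℝ}
    (t : Tendsto (fun X : ℕ => r0 X ^ 2 * PH {0, h X} (zz X) (al X) / √(log X) ^ 2 * w X)
      atTop (𝓝 x)) :
    Tendsto (fun X : ℕ => dist
    ((∑ n ∈ Ioc (X : ℤ) (2 * X), Fb (zz X) n * Fb (zz X) (n + h X)) / (X * √(log X) ^ 2) * w X)
    ((∑ n ∈ Ioc (X : ℤ) (2 * X), FF (zz X) n * FF (zz X) (n + h X)) / (X * √(log X) ^ 2) * w X))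
    atTop (𝓝 0) := by
  obtain ⟨k, hk⟩ := two_bdU A
  have := (((tinv.const_mul (1 + 5 * (2 * 10 ^ k + 2))).mul_const C).add (t.mul
    (((tendsto_rpow_neg_atTop (y := 19 / 1000) (by norm_num)).comp tl).const_mul
      (2 * 10 ^ k * 17))))
  simp only [mul_zero, zero_mul, add_zero] at this
  refine squeeze_zero' (.of_forall fun _ => dist_nonneg) ?_ this
  filter_upwards [hk, hh, hw, r0_bd, LL_ge, tl.eventually_ge_atTop 1, eventually_gt_atTop 0]
    with X h1' hX hW h2 h3 l1 h5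
  have h1 := h1' _ hX.1 hX.2.1 hX.2.2
  have l0' : 0 ≤ (log X)⁻¹ := inv_nonneg.2 (by linarith)
  refine le_trans (b := ((1 + 5 * (2 * 10 ^ k + 2)) * (log X)⁻¹ +
    r0 X ^ 2 * PH {0, h X} (zz X) (al X) / √(log X) ^ 2 *
      (2 * 10 ^ k * 17 * log X ^ (-(19 / 1000 : ℝ)))) * w X) ?_ (by
    rw [add_mul]
    exact add_le_add (mul_le_mul_of_nonneg_left hW.2 (by positivity))
      (le_of_eq (by simp only [Function.comp]; ring)))
  rw [Real.dist_eq, ← sub_mul, abs_mul, abs_of_nonneg hW.1, ← Real.dist_eq]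
  refine mul_le_mul_of_nonneg_right ?_ hW.1
  have X0 : (0 : ℝ) < X := by exact_mod_cast h5
  have l0 : 0 < log X := by linarith
  have P0 := PH_nonneg {0, h X} (zz X) (al X)
  have r : 0 < r0 X := lt_of_lt_of_le (by positivity) h2.1
  rw [dist_comm, Real.dist_eq, ← sub_div, abs_div, sq_sqrt l0.le,
    abs_of_pos (by positivity : 0 < X * log X), div_le_iff₀ (by positivity)]
  refine h1.trans ?_
  have e1 : (4 * log X ^ 2 + r0 X ^ 2) * exp (-(9 / 10 * LL X)) ≤
      17 * (r0 X ^ 2 * log X ^ (-(19 / 1000 : ℝ))) := by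
    have a : exp (-(9 / 10 * LL X)) ≤ log X ^ (-(99 / 1000 : ℝ)) := by
      rw [rpow_def_of_pos l0, exp_le_exp]; linarith
    have b : 1 ≤ log X ^ (2 / 25 : ℝ) := one_le_rpow l1 (by norm_num)
    have c : log X ^ 2 = (log X ^ (24 / 25 : ℝ)) ^ 2 * log X ^ (2 / 25 : ℝ) := by
      rw [← rpow_natCast, ← rpow_natCast, ← rpow_mul l0.le, ← rpow_add l0]; norm_num
    have d : (log X ^ (24 / 25 : ℝ)) ^ 2 ≤ (2 * r0 X) ^ 2 := by gcongr; linarith [h2.1]
    have e : 4 * log X ^ 2 + r0 X ^ 2 ≤ 17 * r0 X ^ 2 * log X ^ (2 / 25 : ℝ) := by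
      rw [c]; nlinarith [sq_nonneg (r0 X)]
    calc _ ≤ 17 * r0 X ^ 2 * log X ^ (2 / 25 : ℝ) * log X ^ (-(99 / 1000 : ℝ)) := by gcongr
      _ = _ := by rw [mul_assoc, mul_assoc, ← rpow_add l0]; norm_num
  have e2 : (4 * log X ^ 2 + r0 X ^ 2) / log X ^ 5 ≤ 5 := by
    rw [div_le_iff₀ (by positivity)]
    have := pow_le_pow_left₀ r.le h2.2 2
    have := pow_le_pow_right₀ l1 (show 2 ≤ 5 by norm_num)
    have := pow_le_pow_right₀ l1 (show 4 ≤ 5 by norm_num)
    nlinarith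
  calc _ = X + 2 * 10 ^ k * X * PH {0, h X} (zz X) (al X) * ((4 * log X ^ 2 + r0 X ^ 2) *
        exp (-(9 / 10 * LL X))) + (2 * 10 ^ k + 2) * X * ((4 * log X ^ 2 + r0 X ^ 2) / log X ^ 5) := by
        ring
    _ ≤ X + 2 * 10 ^ k * X * PH {0, h X} (zz X) (al X) *
        (17 * (r0 X ^ 2 * log X ^ (-(19 / 1000 : ℝ)))) + (2 * 10 ^ k + 2) * X * 5 := by gcongr
    _ = _ := by field_simp; ring


end Pool.Agent.Work.MP_678620_nt.TA
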