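import Pool.Agent.Work.MP_678620_nt.TASand

/-! Pairs of sums of two squares: the singular series, uniformly in the shift. -/

set_option autoImplicit false
open Finset Filter Topology

namespace Pool.Agent.Work.MP_678620_nt.TA

open Classical

lemma dn_mul {M k : ℕ} (hM : M ≠ 0) (hk : k ≠ 0) {P : ℤ → Prop} (h : Per M P) :
    dn (M * k) P = dn M P := by
  have e : ∀ j : ℕ, ∑ a ∈ range (M * j), ind (P a) = j * ∑ a ∈ range M, ind (P a) := by
    intro j
    induction j with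
    | zero => simp
    | succ j ih =>
      rw [Nat.mul_succ, sum_range_add, ih, Nat.cast_succ, add_mul, one_mul]
      congr 1
      refine sum_congr rfl fun a _ => ?_
      rw [propext (show P ((M * j + a : ℕ) : ℤ) ↔ P a from
        ⟨h _ _ ⟨-j, by push_cast; ring⟩, h _ _ ⟨j, by push_cast; ring⟩⟩)]
  have k0 : (k : ℝ) ≠ 0 := by exact_mod_cast hk
  have M0 : (M : ℝ) ≠ 0 := by exact_mod_cast hM
  rw [dn, dn, e]
  push_cast
  field_simp

lemma Loc.of_dvd {M M' : ℕ} (d : M ∣ M') {a : ℤ} (h : Loc M' a) : Loc M a :=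
  let ⟨u, v, e⟩ := h
  ⟨u, v, (Int.natCast_dvd_natCast.2 d).trans e⟩

/-- a local sum of two squares of small valuation stays one to every higher power -/
lemma loc_up {p α : ℕ} (β : ℕ) (hp : p.Prime) {a : ℤ} (h : Loc (p ^ (α + 2)) a)
    (hd : ¬ ((p ^ (α + 1) : ℕ) : ℤ) ∣ a) : Loc (p ^ β) a := by
  obtain ⟨u, v, c, e⟩ := h
  have t0 : 0 ≤ u ^ 2 + v ^ 2 := by positivity
  obtain ⟨t, ht⟩ := Int.eq_ofNat_of_zero_le t0
  have hd' : ¬ p ^ (α + 1) ∣ t := fun d => hd (by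
    have : a = (t : ℤ) + ((p ^ (α + 1) : ℕ) : ℤ) * (p * c) := by
      rw [← ht]; push_cast at e ⊢; linear_combination e
    rw [this]
    exact dvd_add (Int.natCast_dvd_natCast.2 d) (dvd_mul_right _ _))
  have t1 : t ≠ 0 := by rintro rfl; exact hd' (dvd_zero _)
  have e1 := Nat.ordProj_mul_ordCompl_eq_self t p
  have e2 := Nat.not_dvd_ordCompl hp t1
  have e3 : t.factorization p ≤ α := by
    rw [hp.pow_dvd_iff_le_factorization t1] at hd'; omega
  have st : S2 t := ⟨u, v, ht.symm⟩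
  have ev := s2_iff.1 st p hp
  generalize t / p ^ t.factorization p = s at e1 e2
  generalize t.factorization p = j at e1 e3 ev
  obtain ⟨i, rfl⟩ := Nat.exists_eq_add_of_le e3
  subst e1
  have ea : a = (p : ℤ) ^ j * (s + p ^ 2 * (p ^ i * c)) := by
    rw [ht] at e; push_cast at e; linear_combination e
  have nd : ¬ (p : ℤ) ∣ s + p ^ 2 * (p ^ i * c) := fun d =>
    e2 (Int.natCast_dvd_natCast.1 ((dvd_add_left ((dvd_pow_self _ two_ne_zero).mul_right _)).1 d))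
  have pw : ∀ {x : ℤ}, S2 x → ∀ n : ℕ, S2 (x ^ n) := fun {x} hx n => by
    induction n with
    | zero => exact ⟨1, 0, by simp⟩
    | succ n ih => rw [pow_succ]; exact ih.mul hx
  rw [ea]
  by_cases h2 : p = 2
  · subst h2
    have g1 : (s : ℤ) % 4 = 1 := (S2.half j (by exact_mod_cast st)).mod (by omega)
    refine (pw ⟨1, 1, by norm_num⟩ j).mul_loc (loc_of (by positivity) ?_ (by push_cast; omega))
    rw [Nat.cast_pow]
    exact ((Nat.prime_iff_prime_int.1 hp).coprime_iff_not_dvd.2 nd).symm.pow_right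
  · refine S2.mul_loc ?_ (loc_odd hp h2 nd)
    by_cases h4 : p % 4 = 1
    · exact pw (s2_prime hp h4) j
    · obtain ⟨m, rfl⟩ := ev (by have := hp.eq_two_or_odd; omega)
      exact ⟨p ^ m, 0, by ring⟩

lemma dn_ex (M : ℕ) (H : Finset ℤ) (P : ℤ → ℤ → Prop) :
    dn M (fun a => ∃ h ∈ H, P h a) ≤ ∑ h ∈ H, dn M (P h) := by
  simp only [dn]
  rw [← sum_div, sum_comm]
  exact div_le_div_of_nonneg_right (sum_le_sum fun a _ => ind_ex _ _) M.cast_nonneg

lemma den_up (H : Finset ℤ) {p α β : ℕ} (hp : p.Prime) (h : α + 2 ≤ β) :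
    den H (p ^ β) ≤ den H (p ^ (α + 2)) ∧
      den H (p ^ (α + 2)) ≤ den H (p ^ β) + H.card * ((p : ℝ) ^ (α + 1))⁻¹ := by
  obtain ⟨i, rfl⟩ := Nat.exists_eq_add_of_le h
  have n0 : ∀ n, p ^ n ≠ 0 := fun n => pow_ne_zero _ hp.ne_zero
  have e : den H (p ^ (α + 2)) = dn (p ^ (α + 2 + i)) fun a => ∀ h ∈ H, Loc (p ^ (α + 2)) (a + h) := by
    rw [pow_add p (α + 2) i, dn_mul (n0 _) (n0 _) (per_den H _)]; rfl
  rw [e]
  refine ⟨dn_mono fun a ha h hh => (ha h hh).of_dvd (pow_dvd_pow p (by omega)), ?_⟩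
  have e1 := dn_or (p ^ (α + 2 + i)) (fun a => ∀ h ∈ H, Loc (p ^ (α + 2 + i)) (a + h))
    fun a => ∃ h ∈ H, ((p ^ (α + 1) : ℕ) : ℤ) ∣ a + h
  have e2 := dn_nonneg (p ^ (α + 2 + i)) fun a => (∀ h ∈ H, Loc (p ^ (α + 2 + i)) (a + h)) ∧
    ∃ h ∈ H, ((p ^ (α + 1) : ℕ) : ℤ) ∣ a + h
  have e3 := dn_ex (p ^ (α + 2 + i)) H fun h a => ((p ^ (α + 1) : ℕ) : ℤ) ∣ a + h
  rw [sum_congr rfl fun h _ => dn_dvd (n0 _) (pow_dvd_pow p (by omega)) h, sum_const,
    nsmul_eq_mul, Nat.cast_pow (α := ℝ)] at e3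
  have e4 := dn_mono (M := p ^ (α + 2 + i)) (P := fun a => ∀ h ∈ H, Loc (p ^ (α + 2)) (a + h))
    (Q := fun a => (∀ h ∈ H, Loc (p ^ (α + 2 + i)) (a + h)) ∨
      ∃ h ∈ H, ((p ^ (α + 1) : ℕ) : ℤ) ∣ a + h) fun a ha => by
      by_contra c
      push Not at c
      obtain ⟨⟨h, hh, c1⟩, c2⟩ := c
      exact c1 (loc_up _ hp (ha h hh) (c2 h hh))
  unfold den
  linarith

lemma den_lim (H : Finset ℤ) {p α : ℕ} (hp : p.Prime) {d : ℝ}
    (t : Tendsto (fun β => den H (p ^ β)) atTop (𝓝 d)) :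
    d ≤ den H (p ^ (α + 2)) ∧ den H (p ^ (α + 2)) ≤ d + H.card * ((p : ℝ) ^ (α + 1))⁻¹ :=
  ⟨le_of_tendsto t ((eventually_ge_atTop _).mono fun _ h => (den_up H hp h).1),
    ge_of_tendsto (t.add_const _) ((eventually_ge_atTop _).mono fun _ h => (den_up H hp h).2)⟩

lemma loc_two (α : ℕ) {a : ℤ} (h : a % 4 = 1 ∨ a % 8 = 2 ∨ a % 16 = 4) : Loc (2 ^ α) a := by
  have k : ∀ b : ℤ, b % 4 = 1 → Loc (2 ^ α) b := fun b hb => loc_of (by positivity) (by
    push_cast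
    exact IsCoprime.pow_right ⟨1, -(b / 2), by omega⟩) hb
  rcases h with h | h | h
  · exact k a h
  · rw [show a = 2 * (a / 2) by omega]
    exact S2.mul_loc ⟨1, 1, by norm_num⟩ (k _ (by omega))
  · rw [show a = 4 * (a / 4) by omega]
    exact S2.mul_loc ⟨2, 0, by norm_num⟩ (k _ (by omega))

lemma den_pair_ge {p α : ℕ} (hp : p.Prime) (hα : 4 ≤ α) (h : ℤ) : 1 / 16 ≤ den {0, h} (p ^ α) := by
  by_cases h2 : p = 2
  · subst h2
    obtain ⟨c, hc⟩ : ∃ c : ℤ, ∀ a : ℤ, 16 ∣ a + c → (a % 4 = 1 ∨ a % 8 = 2 ∨ a % 16 = 4) ∧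
        ((a + h) % 4 = 1 ∨ (a + h) % 8 = 2 ∨ (a + h) % 16 = 4) := by
      have : h % 4 = 0 ∨ h % 4 = 1 ∨ h % 4 = 3 ∨ h % 8 = 2 ∨ h % 8 = 6 := by omega
      rcases this with e | e | e | e | e
      · exact ⟨-1, fun a ha => by omega⟩
      · exact ⟨-4, fun a ha => by omega⟩
      · exact ⟨-2, fun a ha => by omega⟩
      · exact ⟨h - 4, fun a ha => by omega⟩
      · exact ⟨-4, fun a ha => by omega⟩
    have := dn_dvd (pow_ne_zero α two_ne_zero) (pow_dvd_pow 2 hα) c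
    norm_num at this
    rw [← this]
    refine dn_mono fun a ha h' hh => ?_
    rcases mem_insert.1 hh with rfl | hh
    · rw [add_zero]; exact loc_two _ (hc a ha).1
    · rw [mem_singleton.1 hh]; exact loc_two _ (hc a ha).2
  · have := one_sub_den {0, h} hp h2 (α := α) (by omega)
    have h3 : (3 : ℝ) ≤ p := by have := hp.two_le; exact_mod_cast (by omega : 3 ≤ p)
    have c : ((card ({0, h} : Finset ℤ) : ℕ) : ℝ) ≤ 2 := by exact_mod_cast card_le_two
    have : ((card ({0, h} : Finset ℤ) : ℕ) : ℝ) / p ≤ 2 / 3 := by gcongr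
    linarith

lemma den_le_one (H : Finset ℤ) {p : ℕ} (hp : p.Prime) (α : ℕ) : den H (p ^ α) ≤ 1 :=
  dn_le (pow_ne_zero α hp.ne_zero) _

lemma den_pair_ge' {p : ℕ} (hp : p.Prime) (α : ℕ) (h : ℤ) :
    2 * den {0} (p ^ α) - 1 ≤ den {0, h} (p ^ α) := by
  have hM := pow_ne_zero α hp.ne_zero
  have e := dn_or (p ^ α) (Loc (p ^ α)) fun a => Loc (p ^ α) (a + h)
  have e' := dn_le hM fun a => Loc (p ^ α) a ∨ Loc (p ^ α) (a + h)
  rw [dn_shift hM (per_loc _)] at e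
  rw [den, den, dn_congr (P := fun a => ∀ h' ∈ ({0, h} : Finset ℤ), _)
    (Q := fun a => Loc (p ^ α) a ∧ Loc (p ^ α) (a + h)) (by simp),
    dn_congr (P := fun a => ∀ h ∈ ({0} : Finset ℤ), _) (Q := Loc (p ^ α)) (by simp)]
  linarith

lemma gen_fac {d e : ℝ} (h0 : 1 / 4 ≤ d) (h1 : d ≤ 1) (he : 1 - d ≤ e) :
    |(2 * d - 1) / d ^ 2 - 1| ≤ 16 * e ^ 2 := by
  have d0 : 0 < d := by linarith
  rw [show (2 * d - 1) / d ^ 2 - 1 = -((1 - d) ^ 2 / d ^ 2) by field_simp; ring, abs_neg,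
    abs_of_nonneg (by positivity), div_le_iff₀ (by positivity)]
  have e1 : (1 - d) ^ 2 ≤ e ^ 2 := pow_le_pow_left₀ (by linarith) he 2
  have e2 : 1 ≤ 16 * d ^ 2 := by nlinarith
  nlinarith [sq_nonneg e]

lemma one_sub_sum_le {ι : Type*} (s : Finset ι) (x : ι → ℝ) (h0 : ∀ i ∈ s, 0 ≤ x i)
    (h1 : ∀ i ∈ s, x i ≤ 1) : 1 - ∑ i ∈ s, x i ≤ ∏ i ∈ s, (1 - x i) := by
  induction s using Finset.induction_on with
  | empty => simp
  | insert a s ha ih =>
    rw [sum_insert ha, prod_insert ha]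
    have a1 := ih (fun i hi => h0 i (mem_insert_of_mem hi)) fun i hi => h1 i (mem_insert_of_mem hi)
    have a2 := h0 a (mem_insert_self _ _)
    have a3 := h1 a (mem_insert_self _ _)
    have a4 : 0 ≤ ∑ i ∈ s, x i := sum_nonneg fun i hi => h0 i (mem_insert_of_mem hi)
    nlinarith [mul_le_mul_of_nonneg_left a1 (sub_nonneg.mpr a3), mul_nonneg a2 a4]

/-- the truncated singular series is bounded below, uniformly in the shift -/
theorem trunc_ge (z : ℝ) {α : ℕ} (hα : 4 ≤ α) (h : ℤ) :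
    (1 / 16) ^ 33 * (1 / 2) ≤ PH {0, h} z α / PH {0} z α ^ 2 := by
  rw [PH, PH, ← prod_pow, ← prod_div_distrib, ← prod_filter_mul_prod_filter_not _ (· ≤ 32)]
  have pr : ∀ p ∈ PP z, p.Prime := fun p hp => (mem_filter.1 hp).2.1
  have a : ((1 : ℝ) / 16) ^ 33 ≤ ∏ p ∈ PP z with p ≤ 32, den {0, h} (p ^ α) / den {0} (p ^ α) ^ 2 := by
    refine le_trans ?_ (prod_le_prod (f := fun _ => 1 / 16) (fun _ _ => by norm_num) fun p hp => ?_)
    · rw [prod_const]
      refine pow_le_pow_of_le_one (by norm_num) (by norm_num) ?_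
      exact (card_le_card (t := range 33) fun p hp =>
        mem_range.2 (by have := (mem_filter.1 hp).2; omega)).trans (by simp)
    · have q := pr p (mem_filter.1 hp).1
      have b0 := den_zero q (α := α) (by omega)
      have b1 := den_le_one {0} q α
      have b2 := den_pair_ge q hα h
      rw [le_div_iff₀ (by positivity)]
      nlinarith
  refine mul_le_mul a ?_ (by norm_num) (le_trans (by positivity) a)
  have c : ∀ p ∈ (PP z).filter (fun p => ¬ p ≤ 32), 0 ≤ 16 * ((p : ℝ) ^ 2)⁻¹ ∧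
      16 * ((p : ℝ) ^ 2)⁻¹ ≤ 1 := fun p hp => by
    have : (32 : ℝ) ≤ p := by exact_mod_cast (not_le.1 (mem_filter.1 hp).2).le
    refine ⟨by positivity, ?_⟩
    rw [← div_eq_mul_inv, div_le_one (by positivity)]
    nlinarith
  refine le_trans ?_ ((one_sub_sum_le _ _ (fun p hp => (c p hp).1) fun p hp => (c p hp).2).trans
    (prod_le_prod (fun p hp => sub_nonneg.2 (c p hp).2) fun p hp => ?_))
  · rw [← mul_sum]
    have s1 : ∑ p ∈ (PP z).filter (fun p => ¬ p ≤ 32), ((p : ℝ) ^ 2)⁻¹ ≤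
        ∑ p ∈ Ioc 32 (⌊z⌋₊ + 32), ((p : ℝ) ^ 2)⁻¹ :=
      sum_le_sum_of_subset_of_nonneg (fun p hp => by
        have a := (mem_filter.1 hp).2
        have b := (mem_Icc.1 (mem_filter.1 (mem_filter.1 hp).1).1).2
        rw [mem_Ioc]; omega) fun _ _ _ => by positivity
    have s2 := sum_Ioc_inv_sq_le_sub (α := ℝ) (k := 32) (n := ⌊z⌋₊ + 32) (by norm_num) (by omega)
    have s3 : (0 : ℝ) ≤ (((⌊z⌋₊ + 32 : ℕ) : ℝ))⁻¹ := by positivity
    rw [show ((32 : ℕ) : ℝ)⁻¹ = 1 / 32 by norm_num] at s2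
    linarith
  · have q := pr p (mem_filter.1 hp).1
    have h2 : p ≠ 2 := by have := (mem_filter.1 hp).2; omega
    have b0 := den_zero q (α := α) (by omega)
    have e := one_sub_den {0} q h2 (α := α) (by omega)
    rw [card_singleton, Nat.cast_one, one_div] at e
    have g := (abs_le.1 (gen_fac b0 (den_le_one {0} q α) e)).1
    rw [inv_pow] at g
    have := div_le_div_of_nonneg_right (den_pair_ge' q α h) (sq_nonneg (den {0} (p ^ α)))
    linarith

lemma head_fac {u u' v v' e : ℝ} (h1 : 1 / 16 ≤ u') (h2 : u' ≤ u) (h3 : u ≤ u' + 2 * e)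
    (h4 : 1 / 4 ≤ v') (h5 : v' ≤ v) (h6 : v ≤ v' + 1 * e) (e1 : e ≤ 1) :
    |u' / v' ^ 2 / (u / v ^ 2) - 1| ≤ 32 * e := by
  have u0 : 0 < u := by linarith
  have v0 : 0 < v := by linarith
  have e0 : 0 ≤ e := by linarith
  rw [show u' / v' ^ 2 / (u / v ^ 2) = u' / u * (v / v') ^ 2 by field_simp]
  have a1 : u' / u ≤ 1 := (div_le_one u0).2 h2
  have a2 : 1 - 32 * e ≤ u' / u := by rw [le_div_iff₀ u0]; nlinarith
  have a3 : 0 ≤ u' / u := by positivity
  have b1 : 1 ≤ v / v' := (one_le_div (by linarith)).2 h5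
  have b2 : v / v' ≤ 1 + 4 * e := by rw [div_le_iff₀ (by linarith)]; nlinarith
  generalize u' / u = a at *
  generalize v / v' = b at *
  have b3 : 1 ≤ b ^ 2 := one_le_pow₀ b1
  have b4 : b ^ 2 ≤ (1 + 4 * e) ^ 2 := pow_le_pow_left₀ (by linarith) b2 2
  rw [abs_le]
  constructor <;> nlinarith

/-- the truncated singular series approximates the full one, uniformly in the shift -/
theorem sing_U (h : ℕ → ℤ) {δ₀ : ℕ → ℝ} {D : ℕ → ℕ → ℝ}
    (h₀ : ∀ p : ℕ, p.Prime → Tendsto (fun α => den {0} (p ^ α)) atTop (𝓝 (δ₀ p)))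
    (h₁ : ∀ X p : ℕ, p.Prime → Tendsto (fun α => den {0, h X} (p ^ α)) atTop (𝓝 (D X p)))
    {z : ℕ → ℝ} {α : ℕ → ℕ} (hz : Tendsto z atTop atTop) (hα : Tendsto α atTop atTop)
    (hh : ∀ᶠ X in atTop, h X ≠ 0 ∧ |(h X : ℝ)| ≤ z X) :
    Tendsto (fun X => (∏' q : {p : ℕ // p.Prime ∧ p % 4 ≠ 1}, D X q.1 / δ₀ q.1 ^ 2) /
      (PH {0, h X} (z X) (α X) / PH {0} (z X) (α X) ^ 2)) atTop (𝓝 1) := by
  let t : ℕ → {p : ℕ // p.Prime ∧ p % 4 ≠ 1} → ℝ := fun X q => if (q.1 : ℝ) ≤ z X then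
    den {0, h X} (q.1 ^ α X) / den {0} (q.1 ^ α X) ^ 2 else 1
  let f : ℕ → {p : ℕ // p.Prime ∧ p % 4 ≠ 1} → ℝ := fun X q => D X q.1 / δ₀ q.1 ^ 2 / t X q - 1
  have d0 : ∀ p : ℕ, p.Prime → 1 / 4 ≤ δ₀ p := fun p hp => ge_of_tendsto (h₀ _ hp)
    ((eventually_ge_atTop 2).mono fun _ => den_zero hp)
  have hd : ∀ X, 4 ≤ α X → ∀ q : {p : ℕ // p.Prime ∧ p % 4 ≠ 1}, (q.1 : ℝ) ≤ z X →
      |f X q| ≤ 32 * ((q.1 : ℝ) ^ (α X - 1))⁻¹ := fun X a q b => by
    obtain ⟨n, hn⟩ : ∃ n, α X = n + 2 := ⟨α X - 2, by omega⟩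
    have l1 := den_lim {0, h X} (α := n) q.2.1 (h₁ X _ q.2.1)
    have l2 := den_lim {0} (α := n) q.2.1 (h₀ _ q.2.1)
    have c : ((card ({0, h X} : Finset ℤ) : ℕ) : ℝ) ≤ 2 := by exact_mod_cast card_le_two
    have q1 : (1 : ℝ) ≤ q.1 := by exact_mod_cast q.2.1.pos
    simp only [f, t, if_pos b]
    rw [hn, show n + 2 - 1 = n + 1 by omega]
    refine head_fac (ge_of_tendsto (h₁ X _ q.2.1)
      ((eventually_ge_atTop 4).mono fun _ k => den_pair_ge q.2.1 k _)) l1.1 (l1.2.trans ?_)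
      (d0 _ q.2.1) l2.1 (by simpa using l2.2) (inv_le_one_of_one_le₀ (one_le_pow₀ q1))
    gcongr
  have sm : Summable fun q : {p : ℕ // p.Prime ∧ p % 4 ≠ 1} => 32 * ((q.1 : ℝ) ^ 2)⁻¹ :=
    ((Real.summable_nat_pow_inv.2 one_lt_two).comp_injective Subtype.val_injective).mul_left _
  have bd : ∀ᶠ X in atTop, ∀ q, ‖f X q‖ ≤ 32 * ((q.1 : ℝ) ^ 2)⁻¹ := by
    filter_upwards [hα.eventually_ge_atTop 4, hh, hz.eventually_ge_atTop 2] with X a b c q
    have q1 : (1 : ℝ) ≤ q.1 := by exact_mod_cast q.2.1.pos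
    rw [Real.norm_eq_abs]
    by_cases e : (q.1 : ℝ) ≤ z X
    · refine (hd X a q e).trans ?_
      gcongr
      omega
    · have h2 : q.1 ≠ 2 := fun k => e (by rw [k]; exact_mod_cast c)
      have nd : ¬ (q.1 : ℤ) ∣ h X := fun k => e (le_trans (by
        exact_mod_cast Int.le_of_dvd (abs_pos.2 b.1) ((dvd_abs _ _).2 k)) b.2)
      have k1 : D X q.1 = 2 * δ₀ q.1 - 1 := tendsto_nhds_unique (h₁ X _ q.2.1)
        ((((h₀ _ q.2.1).const_mul 2).sub_const 1).congr fun _ => (den_pair q.2.1 h2 nd).symm)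
      have k2 : δ₀ q.1 ≤ 1 := le_of_tendsto' (h₀ _ q.2.1) (den_le_one _ q.2.1)
      have k3 : 1 - δ₀ q.1 ≤ (q.1 : ℝ)⁻¹ := le_of_tendsto ((h₀ _ q.2.1).const_sub 1)
        ((eventually_ne_atTop 0).mono fun β k => by simpa using one_sub_den {0} q.2.1 h2 k)
      simp only [f, t, if_neg e, div_one]
      rw [k1]
      refine (gen_fac (d0 _ q.2.1) k2 k3).trans ?_
      rw [inv_pow]
      gcongr
      norm_num
  have key := tendsto_tprod_one_add_of_dominated_convergence (𝓕 := atTop) (f := f)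
    (g := fun _ => 0) sm (fun q => by
      have q2 : (1 : ℝ) < q.1 := by exact_mod_cast q.2.1.one_lt
      refine squeeze_zero_norm' (a := fun X => 32 * ((q.1 : ℝ) ^ (α X - 1))⁻¹) ?_ ?_
      · filter_upwards [hα.eventually_ge_atTop 4, hz.eventually_ge_atTop q.1] with X a b
        exact hd X a q b
      · simpa using ((tendsto_pow_atTop_atTop_of_one_lt q2).comp
          ((tendsto_sub_atTop_nat 1).comp hα)).inv_tendsto_atTop.const_mul 32) bd
  simp only [add_zero, tprod_one] at key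
  refine key.congr' ?_
  filter_upwards [hz.eventually_ge_atTop 0, bd, hα.eventually_ge_atTop 4] with X hX b a
  have t0 : ∀ q, 0 < t X q := fun q => by
    simp only [t]
    split_ifs
    · have := den_pair_ge q.2.1 a (h X)
      have := den_zero q.2.1 (α := α X) (by omega)
      positivity
    · exact one_pos
  have hp : HasProd (t X) (∏ q ∈ (PP (z X)).subtype _, t X q) :=
    hasProd_prod_of_ne_finset_one fun q hq =>
      if_neg fun e => hq (mem_subtype.2 ((mem_PP hX).2 ⟨q.2.1, q.2.2, e⟩))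
  have e : ∏ q ∈ (PP (z X)).subtype _, t X q =
      PH {0, h X} (z X) (α X) / PH {0} (z X) (α X) ^ 2 := by
    rw [PH, PH, ← prod_pow, ← prod_div_distrib, ← prod_subtype_of_mem (s := PP (z X)) (p := fun p =>
      p.Prime ∧ p % 4 ≠ 1) _ fun p hp => (mem_filter.1 hp).2]
    exact prod_congr rfl fun q hq => if_pos ((mem_PP hX).1 (mem_subtype.1 hq)).2.2
  have m : Multipliable fun q => 1 + f X q :=
    multipliable_one_add_of_summable (Summable.of_nonneg_of_le (fun _ => norm_nonneg _) b sm)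
  have := (m.hasProd.mul hp).tprod_eq
  rw [e] at this
  rw [eq_div_iff (lt_of_lt_of_le (by positivity) (trunc_ge _ a _)).ne', ← this]
  refine tprod_congr fun q => ?_
  have := (t0 q).ne'
  simp only [f]
  field_simp
  ring

end Pool.Agent.Work.MP_678620_nt.TA
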