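import Pool.Agent.Work.MP_678620_nt.U.A
import Pool.Agent.Work.MP_678620_nt.U.S

/-! Pairs of sums of two squares: the asymptotic, uniformly in the shifts. -/

set_option autoImplicit false
open Finset Filter Topology Real Asymptotics

namespace Pool.Agent.Work.MP_678620_nt.TA

open Classical

lemma hwT (h : ℕ → ℤ) : ∀ᶠ X : ℕ in atTop,
    0 ≤ (PH {0, h X} (zz X) (al X) / PH {0} (zz X) (al X) ^ 2)⁻¹ ∧
    (PH {0, h X} (zz X) (al X) / PH {0} (zz X) (al X) ^ 2)⁻¹ ≤ ((1 / 16) ^ 33 * (1 / 2))⁻¹ := by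
  filter_upwards [tal.eventually_ge_atTop 4] with X a
  have := trunc_ge (zz X) a (h X)
  exact ⟨inv_nonneg.2 (le_trans (by positivity) this), inv_anti₀ (by positivity) this⟩

theorem dyadic_pairU (A : ℕ) (h : ℕ → ℤ) (h0 : ∀ X, h X ≠ 0)
    (hh : ∀ᶠ X : ℕ in atTop, |(h X : ℝ)| ≤ log X ^ A ∧ 2 * |h X| ≤ X) {K : ℝ}
    (hK : Tendsto (fun X : ℕ => ct X S2 * √(log X) / X) atTop (𝓝 K)) :
    Tendsto (fun X : ℕ => ct X (fun n => S2 n ∧ S2 (n + h X)) * log X / X *
      (PH {0, h X} (zz X) (al X) / PH {0} (zz X) (al X) ^ 2)⁻¹) atTop (𝓝 (K ^ 2)) := by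
  have a1 := @FF_iff {0} (by simp) K
  have a2 := @Fb_iff {0} (by simp) K
  have c1 : ∀ᶠ X : ℕ in atTop, ({0, h X} : Finset ℤ).card = 2 :=
    .of_forall fun X => card_pair (h0 X).symm
  have c2 : ∀ᶠ X : ℕ in atTop, ∀ a ∈ ({0, h X} : Finset ℤ), 2 * |a| ≤ X := hh.mono fun X b a ha => by
    rcases mem_insert.1 ha with rfl | ha
    · simp
    · rw [mem_singleton.1 ha]; exact b.2
  have b1 := FF_iffU (fun X => {0, h X}) c1 c2 (hwT h) (x := K ^ 2)
  have b2 := Fb_iffU (fun X => {0, h X}) c1 c2 (hwT h) (x := K ^ 2)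
  simp only [card_singleton, pow_one, prod_singleton, add_zero, mem_singleton, forall_eq] at a1 a2
  simp only [prod_pair (h0 _).symm, add_zero, mem_insert, mem_singleton,
    forall_eq_or_imp, forall_eq] at b1 b2
  have t := ((a2.1 ((a1.2 hK).congr_dist one_trans)).pow 2).congr'
    (f₂ := fun X => r0 X ^ 2 * PH {0, h X} (zz X) (al X) / √(log X) ^ 2 *
      (PH {0, h X} (zz X) (al X) / PH {0} (zz X) (al X) ^ 2)⁻¹) (by
      filter_upwards [tal.eventually_ge_atTop 4] with X a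
      have := (PH_zero_pos (zz X) (α := al X) (Nat.le_add_left 2 _)).ne'
      have := left_ne_zero_of_mul (lt_of_lt_of_le (by positivity) (trunc_ge (zz X) a (h X))).ne'
      field_simp)
  refine (b1.1 ((b2.2 t).congr_dist (two_transU A h
    (hh.mono fun X a => ⟨h0 X, a⟩) (hwT h) t))).congr fun X => ?_
  rw [sq_sqrt (log_natCast_nonneg X)]

lemma ev_sz (A : ℕ) : ∀ᶠ X : ℕ in atTop, log X ^ A ≤ zz X ∧ 2 * log X ^ A ≤ X := by
  filter_upwards [ev_le A 1 (show (0 : ℝ) < 24 / 25 by norm_num), tl.eventually_gt_atTop 0,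
    tnat.eventually ((isLittleO_pow_log_id_atTop (n := A)).bound one_half_pos)] with X a b c
  rw [rpow_zero, mul_one, pow_one] at a
  rw [id, norm_of_nonneg (by positivity), norm_of_nonneg (by positivity)] at c
  refine ⟨?_, by linarith⟩
  rw [zz, ← exp_log b, ← exp_nat_mul, exp_log b]
  exact exp_le_exp.2 a

/-- the singular series of a pair -/
noncomputable def SS (δ : Finset ℤ → ℕ → ℝ) (a b : ℤ) : ℝ :=
  ∏' q : {p : ℕ // p.Prime ∧ p % 4 ≠ 1}, δ {a, b} q.1 / δ {0} q.1 ^ 2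

variable {δ : Finset ℤ → ℕ → ℝ}
  (hδ : ∀ (H : Finset ℤ) (p : ℕ), p.Prime → Tendsto (fun α => den H (p ^ α)) atTop (𝓝 (δ H p)))
include hδ

lemma SS_ge {a b : ℤ} (hab : a ≠ b) : (1 / 16) ^ 33 * (1 / 2) ≤ SS δ a b :=
  ge_of_tendsto (sing_tendsto (sub_ne_zero.2 hab.symm) (δ₀ := δ {0}) (δ := δ {a, b}) (hδ {0})
    (fun p hp => (hδ {a, b} p hp).congr fun _ => den_shift (pow_ne_zero _ hp.ne_zero) _ _) tz tal)
    ((tal.eventually_ge_atTop 4).mono fun _ h => trunc_ge _ h _)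

theorem pair_seq (A : ℕ) (a b : ℕ → ℤ) (hab : ∀ X, a X ≠ b X)
    (hb : ∀ᶠ X : ℕ in atTop, |(a X : ℝ)| ≤ log X ^ A ∧ |(b X : ℝ)| ≤ log X ^ A) {K : ℝ}
    (hK : Tendsto (fun X : ℕ => ct X S2 * √(log X) / X) atTop (𝓝 K)) :
    Tendsto (fun X : ℕ => ct X (fun n => S2 (n + a X) ∧ S2 (n + b X)) * log X / X /
      SS δ (a X) (b X)) atTop (𝓝 (K ^ 2)) := by
  have h0 : ∀ X, b X - a X ≠ 0 := fun X => sub_ne_zero.2 (hab X).symm
  have hd : ∀ᶠ X : ℕ in atTop, |((b X - a X : ℤ) : ℝ)| ≤ log X ^ (A + 1) := by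
    filter_upwards [hb, tl.eventually_ge_atTop 2] with X c d
    have := abs_sub (b X : ℝ) (a X)
    have : 0 ≤ log X ^ A := by positivity
    rw [pow_succ]
    push_cast
    nlinarith [c.1, c.2]
  have k2 := dyadic_pairU (A + 1) (fun X => b X - a X) h0 (by
    filter_upwards [hd, ev_sz (A + 1)] with X c d
    refine ⟨c, ?_⟩
    have : 2 * |((b X - a X : ℤ) : ℝ)| ≤ X := by linarith [d.2]
    exact_mod_cast this) hK
  have k3 := k2.congr_dist (distw (hwT fun X => b X - a X)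
    (g := fun X => ct X (fun n => S2 (n + a X) ∧ S2 (n + b X)) * log X / X) (by
    refine squeeze_zero' (.of_forall fun _ => dist_nonneg) ?_ (by simpa using
      ((isLittleO_pow_log_id_atTop (n := A + 1)).tendsto_div_nhds_zero.comp tnat).const_mul 2)
    filter_upwards [hb] with N c
    have l := div_nonneg (log_natCast_nonneg N) N.cast_nonneg
    have e1 := ct_shift N (fun n => S2 n ∧ S2 (n + (b N - a N))) (a N)
    have e2 := ct_shift N (fun n => S2 (n + a N) ∧ S2 (n + b N)) (-a N)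
    simp only [add_assoc, add_sub_cancel, neg_add_cancel, add_zero, neg_add_eq_sub, Int.cast_neg,
      abs_neg] at e1 e2
    rw [Real.dist_eq, mul_div_assoc, mul_div_assoc, ← sub_mul, abs_mul, abs_of_nonneg l, pow_succ,
      mul_div_assoc, ← mul_assoc]
    exact mul_le_mul_of_nonneg_right (abs_le.2 ⟨by linarith [c.1], by linarith [c.1]⟩) l))
  have k4 := sing_U (fun X => b X - a X) (δ₀ := δ {0}) (D := fun X => δ {a X, b X}) (hδ {0})
    (fun X p hp => (hδ _ p hp).congr fun α => den_shift (pow_ne_zero _ hp.ne_zero) _ _) tz tal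
    (by
      filter_upwards [hd, ev_sz (A + 1)] with X c d
      exact ⟨h0 X, c.trans d.1⟩)
  have k5 := k3.div k4 one_ne_zero
  rw [div_one] at k5
  refine k5.congr' ?_
  filter_upwards [tal.eventually_ge_atTop 4] with X c
  have := (lt_of_lt_of_le (by positivity) (trunc_ge (zz X) c (b X - a X))).ne'
  simp only [Pi.div_apply, SS]
  generalize PH {0, b X - a X} (zz X) (al X) / PH {0} (zz X) (al X) ^ 2 = T at this
  field_simp

theorem block_U (A : ℕ) {K : ℝ}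
    (hK : Tendsto (fun X : ℕ => ct X S2 * √(log X) / X) atTop (𝓝 K)) {ε : ℝ} (hε : 0 < ε) :
    ∀ᶠ X : ℕ in atTop, ∀ a b : ℤ, a ≠ b → |(a : ℝ)| ≤ log X ^ A → |(b : ℝ)| ≤ log X ^ A →
      |ct X (fun n => S2 (n + a) ∧ S2 (n + b)) * log X / X / SS δ a b - K ^ 2| ≤ ε := by
  have : ∀ X : ℕ, ∃ a b : ℤ, a ≠ b ∧ (1 ≤ log X → |(a : ℝ)| ≤ log X ^ A ∧ |(b : ℝ)| ≤ log X ^ A) ∧
      (|ct X (fun n => S2 (n + a) ∧ S2 (n + b)) * log X / X / SS δ a b - K ^ 2| ≤ ε →
      ∀ a b : ℤ, a ≠ b → |(a : ℝ)| ≤ log X ^ A → |(b : ℝ)| ≤ log X ^ A →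
      |ct X (fun n => S2 (n + a) ∧ S2 (n + b)) * log X / X / SS δ a b - K ^ 2| ≤ ε) := by
    intro X
    by_cases g : ∀ a b : ℤ, a ≠ b → |(a : ℝ)| ≤ log X ^ A → |(b : ℝ)| ≤ log X ^ A →
      |ct X (fun n => S2 (n + a) ∧ S2 (n + b)) * log X / X / SS δ a b - K ^ 2| ≤ ε
    · refine ⟨0, 1, zero_ne_one, fun l => ?_, fun _ => g⟩
      have := one_le_pow₀ (n := A) l
      constructor <;> simp <;> linarith
    · push Not at g
      obtain ⟨a, b, g1, g2, g3, g4⟩ := g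
      exact ⟨a, b, g1, fun _ => ⟨g2, g3⟩, fun c => absurd c (not_le.2 g4)⟩
  choose a b h1 h2 h3 using this
  filter_upwards [Metric.tendsto_nhds.1 (pair_seq hδ A a b h1
    ((tl.eventually_ge_atTop 1).mono h2) hK) ε hε] with X hX
  exact h3 X (Real.dist_eq _ _ ▸ hX).le

omit hδ in
lemma halvU {T g : ℕ → ℝ} (hT : ∀ n, |T (n + 1) - T n| ≤ 1) (hT0 : ∀ n, |T n| ≤ n) {c ε : ℝ}
    (c0 : 0 ≤ c) (ε0 : 0 ≤ ε) {L : ℕ} (L0 : 0 < L) (g0 : ∀ N, 0 ≤ g N) (g1 : ∀ N, L ≤ N → g N ≤ N)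
    (h1 : ∀ N, L ≤ N → g (N / 2) ≤ 2 / 3 * g N ∧ |2 * g (N / 2) - g N| ≤ ε * g N ∧ 1 ≤ ε * c * g N)
    (h2 : ∀ X, L ≤ X → |T (2 * X) - T X - c * g X| ≤ ε * c * g X) (N : ℕ) :
    L ≤ N → |T N - c * g N| ≤ 9 * (ε * c * g N) + 2 * L * (1 + c) := by
  induction N using Nat.strong_induction_on with
  | _ N ih =>
    intro hN
    have p0 : 0 ≤ ε * c * g N := by have := g0 N; positivity
    rcases lt_or_ge N (2 * L) with a | a
    · have a' : (N : ℝ) ≤ 2 * L := by exact_mod_cast a.le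
      have b1 := abs_sub (T N) (c * g N)
      rw [abs_of_nonneg (mul_nonneg c0 (g0 N))] at b1
      have := mul_le_mul_of_nonneg_left ((g1 N hN).trans a') c0
      linarith [hT0 N]
    obtain ⟨b1, b2, b3⟩ := h1 N hN
    have b4 := abs_le.1 (h2 (N / 2) (by omega))
    have b5 := abs_le.1 (ih (N / 2) (by omega) (by omega))
    have b6 : |T N - T (2 * (N / 2))| ≤ 1 := by
      obtain ⟨k, rfl | rfl⟩ := N.even_or_odd'
      · rw [Nat.mul_div_cancel_left _ two_pos]; simp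
      · rw [show (2 * k + 1) / 2 = k by omega]; exact hT _
    have b7 := mul_le_mul_of_nonneg_left b1 (mul_nonneg ε0 c0)
    have b8 := mul_le_mul_of_nonneg_left (abs_le.1 b2).1 c0
    have b9 := mul_le_mul_of_nonneg_left (abs_le.1 b2).2 c0
    rw [abs_le] at b6 ⊢
    constructor <;> linarith [b4.1, b4.2, b5.1, b5.2, b6.1, b6.2]

theorem init_U (A : ℕ) {K : ℝ} (K0 : K ≠ 0)
    (hK : Tendsto (fun X : ℕ => TT S2 X / X * √(log X)) atTop (𝓝 K)) {ε : ℝ} (hε : 0 < ε) :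
    ∀ᶠ x : ℝ in atTop, ∀ a b : ℤ, a ≠ b → |(a : ℝ)| ≤ log x ^ A → |(b : ℝ)| ≤ log x ^ A →
      |TT (fun n => S2 (n + a) ∧ S2 (n + b)) ⌊x⌋₊ / x - SS δ a b * (K ^ 2 / log x)| ≤
        ε * (SS δ a b * (K ^ 2 / log x)) := by
  have pos : ∀ᶠ N : ℕ in atTop, 0 < log N ∧ (0 : ℝ) < N :=
    (tl.eventually_gt_atTop 0).and (tnat.eventually_gt_atTop 0)
  have d2 : Tendsto (fun N : ℕ => 2 * N) atTop atTop := tendsto_id.const_mul_atTop' two_pos
  have r := (log_ratio (v := fun N : ℕ => ((2 * N : ℕ) : ℝ)) tnat (tendsto_const_nhds.congr'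
    (pos.mono fun N a => by have := a.2; push_cast; field_simp)) two_pos).sqrt
  have k1 := (((hK.comp d2).mul r).const_mul 2).sub hK
  rw [sqrt_one, show 2 * (K * 1) - K = K by ring] at k1
  set η := ε / 20 with hη
  have η0 : 0 < η := by positivity
  obtain ⟨κ, κ0, hκ⟩ : ∃ κ : ℝ, 0 < κ ∧ ∀ a b : ℤ, a ≠ b → κ ≤ SS δ a b * K ^ 2 :=
    ⟨(1 / 16) ^ 33 * (1 / 2) * K ^ 2, by positivity, fun a b h =>
      mul_le_mul_of_nonneg_right (SS_ge hδ h) (sq_nonneg K)⟩
  have k2 := block_U hδ (2 * A) (k1.congr' (by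
    filter_upwards [pos, d2.eventually pos] with N c d
    have := c.2
    have := sqrt_pos.2 d.1
    rw [← TT_ct, sqrt_div c.1.le]
    simp only [Function.comp]
    push_cast at *
    field_simp)) (ε := η * K ^ 2) (by positivity)
  have r1 : Tendsto (fun N : ℕ => ((N / 2 : ℕ) : ℝ) / N) atTop (𝓝 (1 / 2)) := by
    have := ((tendsto_nat_floor_div_atTop (R := ℝ)).comp (tnat.atTop_div_const two_pos)).div_const 2
    refine this.congr fun N => ?_
    rw [Function.comp, show (2 : ℝ) = (2 : ℕ) from rfl, Nat.floor_div_eq_div, div_div,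
      div_mul_cancel₀ _ (by norm_num)]
  have r2 := r1.mul (log_ratio tnat r1 one_half_pos)
  have r3 : ∀ᶠ N : ℕ in atTop, log N / N ≤ η * κ :=
    (isLittleO_log_id_atTop.tendsto_div_nhds_zero.comp tnat).eventually
      (eventually_le_nhds (by positivity))
  obtain ⟨N₀, hN⟩ := eventually_atTop.1 ((k2.and (pos.and (tl.eventually_ge_atTop 2))).and
    ((r2.eventually (eventually_le_nhds (show (1 / 2 * 1 : ℝ) < 2 / 3 by norm_num))).and
    ((Metric.tendsto_nhds.1 r2 (η / 2) (by positivity)).and r3)))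
  have r4 := (tendsto_nat_floor_div_atTop (R := ℝ)).mul
    (log_ratio tendsto_id (tendsto_nat_floor_div_atTop (R := ℝ)) one_pos)
  filter_upwards [tendsto_sqrt_atTop.eventually_ge_atTop (N₀ : ℝ), eventually_ge_atTop 4,
    r4.eventually (eventually_le_nhds (show (1 * 1 : ℝ) < 2 by norm_num)),
    Metric.tendsto_nhds.1 r4 η η0, (isLittleO_log_rpow_atTop one_half_pos).bound
      (show 0 < η / (4 * (κ⁻¹ + 1)) by positivity)] with x x1 x2 x3 x4 x5 a b hab ha hb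
  have x0 : 0 < x := by linarith
  have l0 : 0 < log x := log_pos (by linarith)
  have s0 : 2 ≤ √x := le_sqrt_of_sq_le (by linarith)
  have s1 : √x * √x = x := mul_self_sqrt x0.le
  have S0 : 0 < SS δ a b := lt_of_lt_of_le (by positivity) (SS_ge hδ hab)
  have c1 := hκ a b hab
  have hL : ∀ N, ⌈√x⌉₊ ≤ N → N₀ ≤ N ∧ √x ≤ N := fun N h =>
    ⟨by exact_mod_cast x1.trans (Nat.ceil_le.1 h), Nat.ceil_le.1 h⟩
  have key := halvU (T := TT fun n => S2 (n + a) ∧ S2 (n + b)) (g := fun N => N / log N)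
    (TT_step _) (fun n => by
      rw [TT, abs_of_nonneg (sum_nonneg fun _ _ => ind_nonneg _)]
      exact (sum_le_card_nsmul _ _ 1 fun _ _ => ind_le _).trans (by simp))
    (c := SS δ a b * K ^ 2) (by positivity) η0.le (L := ⌈√x⌉₊) (Nat.ceil_pos.2 (by linarith))
    (fun N => div_nonneg N.cast_nonneg (log_natCast_nonneg N))
    (fun N h => div_le_self N.cast_nonneg (by linarith [(hN N (hL N h).1).1.2.2]))
    (fun N h => by
      obtain ⟨⟨-, ⟨n1, n2⟩, -⟩, n3, n4, n5⟩ := hN N (hL N h).1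
      have e : ((N / 2 : ℕ) : ℝ) / log (N / 2 : ℕ) =
          ((N / 2 : ℕ) : ℝ) / N * (log N / log (N / 2 : ℕ)) * (N / log N) := by field_simp
      have g0 : 0 < (N : ℝ) / log N := by positivity
      rw [Real.dist_eq, abs_lt] at n4
      rw [div_le_iff₀ n2] at n5
      rw [e]
      refine ⟨mul_le_mul_of_nonneg_right n3 g0.le, abs_le.2 ⟨by
        linarith [mul_le_mul_of_nonneg_right n4.1.le g0.le], by
        linarith [mul_le_mul_of_nonneg_right n4.2.le g0.le]⟩,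
        ?_⟩
      rw [← mul_div_assoc, one_le_div n1]
      exact n5.trans (by gcongr))
    (fun N h => by
      obtain ⟨⟨n0, ⟨n1, n2⟩, n3⟩, -⟩ := hN N (hL N h).1
      have e : log x ^ A ≤ log N ^ (2 * A) := by
        have := log_le_log (by linarith) (hL N h).2
        rw [log_sqrt x0.le] at this
        rw [pow_mul]
        exact pow_le_pow_left₀ l0.le (by
          linarith [mul_le_mul_of_nonneg_right n3 n1.le, sq (log (N : ℝ))]) A
      have := mul_le_mul_of_nonneg_right (n0 a b hab (ha.trans e) (hb.trans e))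
        (show 0 ≤ SS δ a b * (N / log N) by positivity)
      rw [← abs_of_nonneg (show 0 ≤ SS δ a b * (N / log N) by positivity), ← abs_mul,
        abs_of_nonneg (show 0 ≤ SS δ a b * (N / log N) by positivity)] at this
      rw [TT_ct]
      refine le_trans (le_of_eq ?_) (this.trans (le_of_eq (by ring)))
      congr 1
      field_simp)
    ⌊x⌋₊ (Nat.ceil_le.2 (by nlinarith [Nat.lt_floor_add_one x]))
  have G0 : 0 < x / log x := by positivity
  have e : (⌊x⌋₊ : ℝ) / log ⌊x⌋₊ = ⌊x⌋₊ / x * (log x / log ⌊x⌋₊) * (x / log x) := by field_simp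
  simp only [id] at x3 x4
  rw [Real.dist_eq, abs_lt] at x4
  rw [e] at key
  have e2 : 2 * (⌈√x⌉₊ : ℝ) * (1 + SS δ a b * K ^ 2) ≤ η * (SS δ a b * K ^ 2) * (x / log x) := by
    rw [norm_of_nonneg l0.le, ← sqrt_eq_rpow, norm_of_nonneg (sqrt_nonneg x), div_mul_eq_mul_div,
      le_div_iff₀ (by positivity)] at x5
    have f1 : (⌈√x⌉₊ : ℝ) ≤ 2 * √x := by linarith [Nat.ceil_lt_add_one (sqrt_nonneg x)]
    have f2 : 1 + SS δ a b * K ^ 2 ≤ (κ⁻¹ + 1) * (SS δ a b * K ^ 2) := by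
      have := mul_le_mul_of_nonneg_left c1 (inv_pos.2 κ0).le
      rw [inv_mul_cancel₀ κ0.ne'] at this
      linarith
    rw [← mul_div_assoc, le_div_iff₀ l0]
    calc _ ≤ 2 * (2 * √x) * ((κ⁻¹ + 1) * (SS δ a b * K ^ 2)) * log x := by gcongr
      _ = log x * (4 * (κ⁻¹ + 1)) * (√x * (SS δ a b * K ^ 2)) := by ring
      _ ≤ η * √x * (√x * (SS δ a b * K ^ 2)) := by gcongr
      _ = η * (SS δ a b * K ^ 2) * (√x * √x) := by ring
      _ = _ := by rw [s1]
  rw [show SS δ a b * (K ^ 2 / log x) = SS δ a b * K ^ 2 * (x / log x) / x by field_simp, ← sub_div,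
    abs_div, abs_of_pos x0, ← mul_div_assoc ε, div_le_div_iff_of_pos_right x0,
    show ε = 20 * η by rw [hη]; ring]
  clear_value η
  have c0 : 0 < SS δ a b * K ^ 2 := κ0.trans_le c1
  generalize SS δ a b * K ^ 2 = c at *
  generalize x / log x = G at *
  generalize (⌊x⌋₊ : ℝ) / x * (log x / log ⌊x⌋₊) = ρ at *
  have m0 : 0 < c * G := mul_pos c0 G0
  have m1 := mul_le_mul_of_nonneg_right x3 (mul_pos η0 m0).le
  have m2 := mul_le_mul_of_nonneg_right x4.1.le m0.le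
  have m3 := mul_le_mul_of_nonneg_right x4.2.le m0.le
  rw [abs_le] at key ⊢
  constructor <;> linarith [key.1, key.2]

end Pool.Agent.Work.MP_678620_nt.TA
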